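import Mathlib
import Pool.Agent.H63.CFTrace
import Pool.Agent.H63.CFDim

namespace Pool.Agent.Results.MP_f5ee21_nt.MultFails

open Filter Topology

/-- The Cantor set of limits of the convergents `p_n / q_n` of `[a_0, a_1, ...]`, all `a_j ∈ A`. -/
def cfSet (A : Finset ℕ) : Set ℝ := {x : ℝ | ∃ a : ℕ → ℕ, (∀ j, a j ∈ A) ∧
  Tendsto (fun n : ℕ =>
    ((List.map (fun j : ℕ => (!![(a j : ℝ), 1; 1, 0] : Matrix (Fin 2) (Fin 2) ℝ))
        (List.range (n + 1))).prod 0 0) /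
    ((List.map (fun j : ℕ => (!![(a j : ℝ), 1; 1, 0] : Matrix (Fin 2) (Fin 2) ℝ))
        (List.range (n + 1))).prod 1 0)) atTop (𝓝 x)}

/-- The semigroup of nonempty even-length products of the matrices `[[a,1],[1,0]]`, `a ∈ A`. -/
def Gamma (A : Finset ℕ) : Set (Matrix (Fin 2) (Fin 2) ℤ) :=
  {M | ∃ l : List ℕ, l ≠ [] ∧ Even l.length ∧ (∀ b ∈ l, b ∈ A) ∧
    (List.map (fun b : ℕ => (!![(b : ℤ), 1; 1, 0] : Matrix (Fin 2) (Fin 2) ℤ)) l).prod = M}

/-- `t` is a trace of the semigroup modulo every `q ≥ 1`. -/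
def Admissible (A : Finset ℕ) (t : ℤ) : Prop :=
  ∀ q : ℤ, 1 ≤ q → ∃ M ∈ Gamma A, Matrix.trace M ≡ t [ZMOD q]

/-- The number of elements of the semigroup with trace `t`. -/
noncomputable def mult (A : Finset ℕ) (t : ℤ) : ℕ := {M ∈ Gamma A | Matrix.trace M = t}.ncard

theorem result :
    ¬ ∀ A : Finset ℕ, (∀ a ∈ A, 1 ≤ a) → 2 ≤ A.card → (1 / 2 : ENNReal) < dimH (cfSet A) →
      ∀ ε : ℝ, 0 < ε → ∃ N₀ : ℕ, ∀ N : ℕ, N₀ ≤ N → ∀ t : ℤ, (N : ℤ) ≤ t → t < 2 * N →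
        Admissible A t → (N : ℝ) ^ (2 * (dimH (cfSet A)).toReal - 1 - ε) < mult A t := by
  intro h
  obtain ⟨K, hK, hdim⟩ := Pool.Agent.H63.CFDim.exists_alphabet
  have hmem : ∀ b, b = 76 ∨ b = 176 → b ∈ (Finset.range K).image fun k => 100 * k + 76 := by
    rintro b (rfl | rfl)
    · exact Finset.mem_image.2 ⟨0, Finset.mem_range.2 (by omega), rfl⟩
    · exact Finset.mem_image.2 ⟨1, Finset.mem_range.2 (by omega), rfl⟩
  have hmod : ∀ b ∈ (Finset.range K).image fun k => 100 * k + 76, b % 100 = 76 := by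
    intro b hb
    obtain ⟨k, -, rfl⟩ := Finset.mem_image.1 hb
    omega
  obtain ⟨N, hN⟩ := h ((Finset.range K).image fun k => 100 * k + 76)
    (fun a ha => by have := hmod a ha; omega)
    (by rw [Finset.card_image_of_injective _ (fun a b h => by simpa using h)]; simpa using hK) hdim
    1 one_pos
  have h1 : 2 * (N + 1) < 11 ^ (2 * (N + 1)) := Nat.lt_pow_self (by norm_num)
  have h2 := hN (2 + 80 * 11 ^ (2 * (N + 1))) (by omega) (2 + 80 * 11 ^ (2 * (N + 1)))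
    (by push_cast; rfl) (by push_cast; nlinarith [pow_pos (show (0 : ℤ) < 11 by norm_num) (2 * (N + 1))])
    (fun q hq => by
      obtain ⟨l, h1, h2, h3, h4⟩ := Pool.Agent.H63.CFTrace.admissible N q hq
      exact ⟨_, ⟨l, h1, h2, fun b hb => hmem b (h3 b hb), rfl⟩, h4⟩)
  have h3 : {M ∈ Gamma ((Finset.range K).image fun k => 100 * k + 76) |
      Matrix.trace M = 2 + 80 * 11 ^ (2 * (N + 1))} = ∅ := by
    rw [Set.eq_empty_iff_forall_notMem]
    rintro _ ⟨⟨l, -, hl1, hl2, rfl⟩, hl3⟩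
    exact Pool.Agent.H63.CFTrace.obstruction N l hl1 (fun b hb => hmod b (hl2 b hb)) hl3
  rw [mult, h3, Set.ncard_empty, Nat.cast_zero] at h2
  exact absurd h2 (not_lt.2 (by positivity))

end Pool.Agent.Results.MP_f5ee21_nt.MultFails
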